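import Pool.Agent.Helper15.RA.GoalsH

/-! Packet RA-H1 (MP_cc6379_al): multiplication by simple reflections in the Hecke algebra. -/

set_option autoImplicit false

open LaurentPolynomial

noncomputable section

namespace Pool.Agent.Helper56.RA

open Pool.Agent.Helper15.RA

section

variable {I W H : Type} [Group W] [Ring H] [Algebra ℤ[T;T⁻¹] H] {M : CoxeterMatrix I}
  {cs : CoxeterSystem M W} {L : W → ℕ} (D : Hecke0 cs L H)

theorem t_one : D.t 1 = 1 := by
  have h1 : ∀ w, D.t 1 * D.t w = D.t w := fun w => by
    have h := D.mul 1 w (by rw [one_mul, cs.length_one, zero_add])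
    rwa [one_mul] at h
  have h2 : LinearMap.mulLeft ℤ[T;T⁻¹] (D.t 1) = LinearMap.id :=
    D.t.ext fun w => by
      rw [LinearMap.mulLeft_apply, LinearMap.id_apply]
      exact h1 w
  have h3 := LinearMap.congr_fun h2 (1 : H)
  rwa [LinearMap.mulLeft_apply, LinearMap.id_apply, mul_one] at h3

theorem t_sq (i : I) : D.t (cs.simple i) * D.t (cs.simple i) =
    xi (L (cs.simple i)) • D.t (cs.simple i) + 1 := by
  have h := D.quad i
  rw [add_mul, mul_sub, mul_sub, mul_smul_comm, mul_one, smul_mul_assoc, one_mul,
    smul_mul_smul_comm, one_mul, ← T_add, neg_add_cancel, T_zero, one_smul] at h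
  rw [xi, sub_smul]
  apply sub_eq_zero.1
  rw [← h]
  abel

theorem left_up (i : I) (w : W) (h : cs.length (cs.simple i * w) = cs.length w + 1) :
    D.t (cs.simple i) * D.t w = D.t (cs.simple i * w) :=
  D.mul _ _ (by rw [h, cs.length_simple, add_comm])

theorem right_up (i : I) (w : W) (h : cs.length (w * cs.simple i) = cs.length w + 1) :
    D.t w * D.t (cs.simple i) = D.t (w * cs.simple i) :=
  D.mul _ _ (by rw [h, cs.length_simple])

theorem left_down (i : I) (w : W) (h : cs.length (cs.simple i * w) + 1 = cs.length w) :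
    D.t (cs.simple i) * D.t w = xi (L (cs.simple i)) • D.t w + D.t (cs.simple i * w) := by
  have h1 : D.t (cs.simple i) * D.t (cs.simple i * w) = D.t w := by
    rw [left_up D i (cs.simple i * w) (by rw [cs.simple_mul_simple_cancel_left, h]),
      cs.simple_mul_simple_cancel_left]
  conv_lhs => rw [← h1]
  rw [← mul_assoc, t_sq, add_mul, smul_mul_assoc, h1, one_mul]

theorem right_down (i : I) (w : W) (h : cs.length (w * cs.simple i) + 1 = cs.length w) :
    D.t w * D.t (cs.simple i) = xi (L (cs.simple i)) • D.t w + D.t (w * cs.simple i) := by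
  have h1 : D.t (w * cs.simple i) * D.t (cs.simple i) = D.t w := by
    rw [right_up D i (w * cs.simple i) (by rw [cs.simple_mul_simple_cancel_right, h]),
      cs.simple_mul_simple_cancel_right]
  conv_lhs => rw [← h1]
  rw [mul_assoc, t_sq, mul_add, mul_smul_comm, h1, mul_one]

/-- elements supported in length at most `m` -/
def F (m : ℕ) : Submodule ℤ[T;T⁻¹] H :=
  Submodule.span ℤ[T;T⁻¹] (D.t '' {w | cs.length w ≤ m})

theorem t_mem (m : ℕ) (w : W) (h : cs.length w ≤ m) : D.t w ∈ F D m :=
  Submodule.subset_span ⟨w, h, rfl⟩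

theorem F_mono {m n : ℕ} (h : m ≤ n) : F D m ≤ F D n :=
  Submodule.span_mono (Set.image_mono fun _ hw => le_trans hw h)

theorem simple_mul_mem (i : I) (m : ℕ) (Z : H) (hZ : Z ∈ F D m) :
    D.t (cs.simple i) * Z ∈ F D (m + 1) := by
  induction hZ using Submodule.span_induction with
  | mem x hx =>
    obtain ⟨w, hw, rfl⟩ := hx
    have hw' : cs.length w ≤ m := hw
    rcases cs.length_simple_mul w i with h | h
    · rw [left_up D i w h]
      exact t_mem D _ _ (by omega)
    · rw [left_down D i w h]
      exact add_mem (Submodule.smul_mem _ _ (t_mem D _ _ (by omega))) (t_mem D _ _ (by omega))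
  | zero => rw [mul_zero]; exact zero_mem _
  | add x y _ _ hx hy => rw [mul_add]; exact add_mem hx hy
  | smul a x _ hx => rw [mul_smul_comm]; exact Submodule.smul_mem _ _ hx

theorem mul_mem (n : ℕ) : ∀ x y : W, cs.length x = n →
    D.t x * D.t y ∈ F D (n + cs.length y) := by
  induction n with
  | zero =>
    intro x y hx
    rw [cs.length_eq_zero_iff] at hx
    rw [hx, t_one, one_mul]
    exact t_mem D _ _ (by omega)
  | succ n ih =>
    intro x y hx
    have hx1 : x ≠ 1 := by
      rintro rfl
      rw [cs.length_one] at hx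
      omega
    obtain ⟨i, hi⟩ := cs.exists_leftDescent_of_ne_one hx1
    have hi' := (cs.isLeftDescent_iff).1 hi
    have h1 : D.t (cs.simple i) * D.t (cs.simple i * x) = D.t x := by
      rw [left_up D i (cs.simple i * x) (by rw [cs.simple_mul_simple_cancel_left, hi']),
        cs.simple_mul_simple_cancel_left]
    rw [← h1, mul_assoc]
    have h2 := simple_mul_mem D i _ _ (ih (cs.simple i * x) y (by omega))
    exact F_mono D (by omega) h2

theorem tau (n : ℕ) : ∀ x y : W, cs.length x = n →
    (x * y = 1 → D.t.repr (D.t x * D.t y) 1 = 1) ∧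
      (x * y ≠ 1 → D.t.repr (D.t x * D.t y) 1 = 0) := by
  induction n with
  | zero =>
    intro x y hx
    rw [cs.length_eq_zero_iff] at hx
    rw [hx, t_one, one_mul, one_mul, Module.Basis.repr_self]
    constructor
    · intro h
      rw [h, Finsupp.single_eq_same]
    · intro h
      rw [Finsupp.single_eq_of_ne (Ne.symm h)]
  | succ n ih =>
    intro x y hx
    have hx1 : x ≠ 1 := by
      rintro rfl
      rw [cs.length_one] at hx
      omega
    obtain ⟨i, hi⟩ := cs.exists_rightDescent_of_ne_one hx1
    have hi' := (cs.isRightDescent_iff).1 hi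
    have h1 : D.t (x * cs.simple i) * D.t (cs.simple i) = D.t x := by
      rw [right_up D i (x * cs.simple i) (by rw [cs.simple_mul_simple_cancel_right, hi']),
        cs.simple_mul_simple_cancel_right]
    have hxy : x * cs.simple i * (cs.simple i * y) = x * y := by
      rw [mul_assoc, cs.simple_mul_simple_cancel_left]
    have h2 := ih (x * cs.simple i) (cs.simple i * y) (by omega)
    rw [hxy] at h2
    rw [← h1, mul_assoc]
    rcases cs.length_simple_mul y i with h | h
    · rw [left_up D i y h]
      exact h2
    · rw [left_down D i y h, mul_add, mul_smul_comm, map_add, map_smul, Finsupp.add_apply,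
        Finsupp.smul_apply]
      have h3 : x * cs.simple i * y ≠ 1 := by
        intro h4
        have h5 : y = (x * cs.simple i)⁻¹ := (inv_eq_of_mul_eq_one_right h4).symm
        have h6 : cs.length (cs.simple i * y) = cs.length x := by
          rw [h5, mul_inv_rev, cs.inv_simple, cs.simple_mul_simple_cancel_left, cs.length_inv]
        have h7 : cs.length y = cs.length (x * cs.simple i) := by
          rw [h5, cs.length_inv]
        omega
      rw [(ih (x * cs.simple i) y (by omega)).2 h3, smul_zero, zero_add]
      exact h2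

end

theorem h_h1 : Pool.Agent.Helper15.RA.H_1 := by
  intro I W H _ _ _ M cs L D
  refine ⟨t_one D, left_up D, left_down D, right_up D, right_down D, ?_,
    fun x y => (tau D _ x y rfl).1, fun x y => (tau D _ x y rfl).2⟩
  intro x y z hz
  have h1 := mul_mem D _ x y rfl
  have h2 := (Module.Basis.mem_span_image D.t).1 h1
  exact h2 (Finsupp.mem_support_iff.2 hz)

end Pool.Agent.Helper56.RA
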